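import Mathlib
import Pool.Agent.Q15.IZDefs
import Pool.Agent.Q15.IZMain

/-! Neutral elements; `ZM` is neutral in the lattice of varieties of implication zroupoids. -/

namespace Q15IZ

/-- `a` is a neutral element of the lattice `L`: for all `y`, `z` the sublattice generated by
`a`, `y`, `z` is distributive. -/
def IsNeutral {L : Type*} [Lattice L] (a : L) : Prop :=
  ∀ y z : L, ∀ p ∈ latticeClosure {a, y, z}, ∀ q ∈ latticeClosure {a, y, z},
    ∀ r ∈ latticeClosure {a, y, z}, p ⊓ (q ⊔ r) = (p ⊓ q) ⊔ (p ⊓ r)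

section lat
variable {L : Type*} [Lattice L]

/-- the five elements -/
def five (a y z : L) : Set L := {a, y, z, y ⊓ z, y ⊔ z}

lemma five_isSublattice {a y z : L} (hy : a ≤ y) (hz : a ≤ z) : IsSublattice (five a y z) := by
  have h1 : a ≤ y ⊓ z := le_inf hy hz
  have h2 : a ≤ y ⊔ z := hy.trans le_sup_left
  have h3 : y ⊓ z ≤ y ⊔ z := inf_le_left.trans le_sup_left
  constructor
  · intro p hp q hq
    simp only [five, Set.mem_insert_iff, Set.mem_singleton_iff] at *
    rcases hp with rfl | rfl | rfl | rfl | rfl <;> rcases hq with rfl | rfl | rfl | rfl | rfl <;>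
      simp_all [sup_comm]
  · intro p hp q hq
    simp only [five, Set.mem_insert_iff, Set.mem_singleton_iff] at *
    rcases hp with rfl | rfl | rfl | rfl | rfl <;> rcases hq with rfl | rfl | rfl | rfl | rfl <;>
      simp_all [inf_comm]

lemma dist_of_le {p q r : L} (h : q ≤ r ∨ r ≤ q ∨ p ≤ q ∨ p ≤ r) :
    p ⊓ (q ⊔ r) = (p ⊓ q) ⊔ (p ⊓ r) := by
  apply le_antisymm _ (sup_le (inf_le_inf_left _ le_sup_left) (inf_le_inf_left _ le_sup_right))
  rcases h with h | h | h | h
  · rw [sup_eq_right.mpr h]; exact le_sup_right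
  · rw [sup_eq_left.mpr h]; exact le_sup_left
  · exact inf_le_left.trans ((le_inf le_rfl h).trans le_sup_left)
  · exact inf_le_left.trans ((le_inf le_rfl h).trans le_sup_right)

lemma five_dist {a y z : L} (hy : a ≤ y) (hz : a ≤ z) {p q r : L} (hp : p ∈ five a y z)
    (hq : q ∈ five a y z) (hr : r ∈ five a y z) : p ⊓ (q ⊔ r) = (p ⊓ q) ⊔ (p ⊓ r) := by
  have h1 : a ≤ y ⊓ z := le_inf hy hz
  have h2 : a ≤ y ⊔ z := hy.trans le_sup_left
  have h3 : y ⊓ z ≤ y ⊔ z := inf_le_left.trans le_sup_left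
  have h4 : y ≤ y ⊔ z := le_sup_left
  have h5 : z ≤ y ⊔ z := le_sup_right
  have h6 : y ⊓ z ≤ y := inf_le_left
  have h7 : y ⊓ z ≤ z := inf_le_right
  simp only [five, Set.mem_insert_iff, Set.mem_singleton_iff] at hp hq hr
  -- the only incomparable pair is `y`, `z`
  have key : ∀ p, (p = a ∨ p = y ∨ p = z ∨ p = y ⊓ z ∨ p = y ⊔ z) →
      p ≤ y ∨ p ≤ z ∨ p = y ⊔ z := by
    rintro p (rfl | rfl | rfl | rfl | rfl)
    · exact Or.inl hy
    · exact Or.inl le_rfl
    · exact Or.inr (Or.inl le_rfl)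
    · exact Or.inl h6
    · exact Or.inr (Or.inr rfl)
  have key2 : ∀ q r, (q = a ∨ q = y ∨ q = z ∨ q = y ⊓ z ∨ q = y ⊔ z) →
      (r = a ∨ r = y ∨ r = z ∨ r = y ⊓ z ∨ r = y ⊔ z) →
      q ≤ r ∨ r ≤ q ∨ (q = y ∧ r = z) ∨ (q = z ∧ r = y) := by
    rintro q r (rfl | rfl | rfl | rfl | rfl) (rfl | rfl | rfl | rfl | rfl) <;> simp_all
  rcases key2 q r hq hr with h | h | ⟨rfl, rfl⟩ | ⟨rfl, rfl⟩
  · exact dist_of_le (Or.inl h)
  · exact dist_of_le (Or.inr (Or.inl h))
  · rcases key p hp with h | h | rfl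
    · exact dist_of_le (Or.inr (Or.inr (Or.inl h)))
    · exact dist_of_le (Or.inr (Or.inr (Or.inr h)))
    · rw [inf_idem, inf_eq_right.mpr h4, inf_eq_right.mpr h5]
  · rcases key p hp with h | h | rfl
    · exact dist_of_le (Or.inr (Or.inr (Or.inr h)))
    · exact dist_of_le (Or.inr (Or.inr (Or.inl h)))
    · rw [sup_comm q r, inf_idem, inf_eq_right.mpr h4, inf_eq_right.mpr h5, sup_comm]

/-- A criterion for neutrality. -/
theorem isNeutral_of {a : L} (h1 : ∀ y z, a ≤ y ⊔ z → a ≤ y ∨ a ≤ z)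
    (h2 : ∀ y z, (a ⊔ y) ⊓ (a ⊔ z) ≤ a ⊔ (y ⊓ z))
    (h3 : ∀ y z, (a ≤ y ↔ a ≤ z) → a ⊔ y = a ⊔ z → y = z) : IsNeutral a := by
  have h2' : ∀ y z, a ⊔ (y ⊓ z) = (a ⊔ y) ⊓ (a ⊔ z) := fun y z =>
    le_antisymm (le_inf (sup_le_sup_left inf_le_left _) (sup_le_sup_left inf_le_right _)) (h2 y z)
  have h2'' : ∀ y z, a ⊔ (y ⊔ z) = (a ⊔ y) ⊔ (a ⊔ z) := fun y z => sup_sup_distrib_left a y z
  have h1' : ∀ y z, a ≤ y ⊔ z ↔ (a ≤ y ∨ a ≤ z) := fun y z =>
    ⟨h1 y z, fun h => h.elim (fun h => h.trans le_sup_left) (fun h => h.trans le_sup_right)⟩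
  intro y z
  -- `a ⊔ p` lies among five elements
  have key : ∀ p ∈ latticeClosure {a, y, z}, a ⊔ p ∈ five a (a ⊔ y) (a ⊔ z) := by
    have h : latticeClosure {a, y, z} ⊆ {p | a ⊔ p ∈ five a (a ⊔ y) (a ⊔ z)} := by
      apply latticeClosure_min
      · rintro p (rfl | rfl | rfl)
        · exact Or.inl (sup_idem p)
        · exact Or.inr (Or.inl rfl)
        · exact Or.inr (Or.inr (Or.inl rfl))
      · have hs := five_isSublattice (a := a) (y := a ⊔ y) (z := a ⊔ z) le_sup_left le_sup_left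
        constructor
        · intro p hp q hq
          change a ⊔ (p ⊔ q) ∈ five a (a ⊔ y) (a ⊔ z)
          rw [h2'']
          exact hs.1 hp hq
        · intro p hp q hq
          change a ⊔ (p ⊓ q) ∈ five a (a ⊔ y) (a ⊔ z)
          rw [h2']
          exact hs.2 hp hq
    exact fun p hp => h hp
  intro p hp q hq r hr
  apply h3
  · rw [le_inf_iff, h1', h1', le_inf_iff, le_inf_iff]
    tauto
  · rw [h2', h2'', h2'', h2', h2']
    exact five_dist le_sup_left le_sup_left (key p hp) (key q hq) (key r hr)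

end lat

/-! ### `ZM` -/

/-- `x''` -/
def dn (A : Alg) (x : A.carrier) : A.carrier := A.imp (A.imp x A.zero) A.zero

/-- the double prime of a term -/
def Tm.dn (t : Tm) : Tm := .imp (.imp t .zero) .zero

lemma prod_closed {A : Alg} (hA : IsIZ A) (x y z : A.carrier) :
    dn A (A.imp (A.imp x y) z) = A.imp (A.imp x y) z := by
  have h1 : ∀ x y z, ∃ b, A.imp (A.imp x y) z = A.imp b A.zero := fun x y z => ⟨_, hA.1 x y z⟩
  obtain ⟨c, hc⟩ := h1 (A.imp z A.zero) x (A.imp (A.imp y z) A.zero)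
  have h2 : A.imp (A.imp x y) z = dn A c := by
    rw [hA.1 x y z, hc]; rfl
  rw [h2]
  exact quad A.imp A.zero (fun z x y => (hA.1 x y z).symm) hA.2 c

/-- the subalgebra of the elements with `x'' = x`, for algebras in which all products are such -/
def Sub (A : Alg) (h0 : dn A A.zero = A.zero) (h : ∀ x y, dn A (A.imp x y) = A.imp x y) : Alg where
  carrier := {x : A.carrier // dn A x = x}
  imp x y := ⟨A.imp x.1 y.1, h _ _⟩
  zero := ⟨A.zero, h0⟩

lemma Sub_eval {A : Alg} (h0 : dn A A.zero = A.zero) (h : ∀ x y, dn A (A.imp x y) = A.imp x y)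
    (v : ℕ → (Sub A h0 h).carrier) (t : Tm) :
    (t.eval (Sub A h0 h) v).1 = t.eval A (fun n => (v n).1) := by
  induction t with
  | var n => rfl
  | zero => rfl
  | imp s t ihs iht =>
    simp only [Tm.eval]
    rw [← ihs, ← iht]
    rfl

lemma Sub_sat {A : Alg} (h0 : dn A A.zero = A.zero) (h : ∀ x y, dn A (A.imp x y) = A.imp x y)
    {e : Tm × Tm} (he : Sat A e) : Sat (Sub A h0 h) e := by
  intro v
  apply Subtype.ext
  rw [Sub_eval, Sub_eval]
  exact he _

lemma Sub_isIZ {A : Alg} (h0 : dn A A.zero = A.zero) (h : ∀ x y, dn A (A.imp x y) = A.imp x y)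
    (hA : IsIZ A) : IsIZ (Sub A h0 h) := by
  constructor
  · intro x y z
    apply Subtype.ext
    exact hA.1 x.1 y.1 z.1
  · apply Subtype.ext
    exact hA.2

lemma Sub_mem {A : Alg} (h0 : dn A A.zero = A.zero) (h : ∀ x y, dn A (A.imp x y) = A.imp x y)
    {X : Variety} (hA : A ∈ X.mem) : Sub A h0 h ∈ X.mem := by
  obtain ⟨E, hE⟩ := X.isVariety
  rw [hE] at hA ⊢
  exact ⟨Sub_isIZ h0 h hA.1, fun e he => Sub_sat h0 h (hA.2 e he)⟩

lemma mem_sup {X Y : Variety} {A : Alg} :
    A ∈ (X ⊔ Y).mem ↔ IsIZ A ∧ ∀ e : Tm × Tm, (∀ B ∈ X.mem, Sat B e) → (∀ B ∈ Y.mem, Sat B e) →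
      Sat A e := by
  constructor
  · rintro ⟨h1, h2⟩
    refine ⟨h1, fun e hX hY => h2 e ?_⟩
    rintro B (hB | hB)
    · exact hX B hB
    · exact hY B hB
  · rintro ⟨h1, h2⟩
    refine ⟨h1, fun e he => h2 e (fun B hB => he B (Or.inl hB)) fun B hB => he B (Or.inr hB)⟩

/-- the identities of `ZM` -/
lemma zm_sat {e : Tm × Tm} (h1 : ¬ e.1.isVar) (h2 : ¬ e.2.isVar) : ∀ B ∈ ZM.mem, Sat B e := by
  intro B hB v
  rw [mem_ZM] at hB
  rw [zm_eval hB.2 v h1, zm_eval hB.2 v h2]

lemma sup_facts {Y : Variety} (hY : Y ≤ I20) {A : Alg} (hA : A ∈ (ZM ⊔ Y).mem) :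
    (∀ x y, A.imp x y = A.imp (dn A x) (dn A y)) ∧ (∀ x y, dn A (A.imp x y) = A.imp x y) := by
  rw [mem_sup] at hA
  have hd : ∀ B ∈ Y.mem, ∀ x, dn B x = x := fun B hB => (mem_I20.mp (hY hB)).2
  constructor
  · intro x y
    have h1 := hA.2 (.imp (.var 0) (.var 1), .imp (Tm.dn (.var 0)) (Tm.dn (.var 1)))
      (zm_sat id id) (by
        intro B hB v
        change B.imp (v 0) (v 1) = B.imp (dn B (v 0)) (dn B (v 1))
        rw [hd B hB, hd B hB])
    exact h1 fun n => if n = 0 then x else y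
  · intro x y
    have h1 := hA.2 (Tm.dn (.imp (.var 0) (.var 1)), .imp (.var 0) (.var 1))
      (zm_sat id id) (by
        intro B hB v
        exact hd B hB _)
    exact h1 fun n => if n = 0 then x else y

lemma Sub_mem_of_sup {Y : Variety} (hY : Y ≤ I20) {A : Alg} (hA : A ∈ (ZM ⊔ Y).mem)
    (h0 : dn A A.zero = A.zero) (h : ∀ x y, dn A (A.imp x y) = A.imp x y) :
    Sub A h0 h ∈ Y.mem := by
  have hA' := mem_sup.mp hA
  obtain ⟨E, hE⟩ := Y.isVariety
  rw [hE]
  refine ⟨Sub_isIZ h0 h hA'.1, fun e he v => ?_⟩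
  apply Subtype.ext
  rw [Sub_eval, Sub_eval]
  have h1 := hA'.2 (Tm.dn e.1, Tm.dn e.2) (zm_sat id id) (by
    intro B hB w
    rw [hE] at hB
    change dn B (e.1.eval B w) = dn B (e.2.eval B w)
    rw [hB.2 e he w]) fun n => (v n).1
  change dn A (e.1.eval A _) = dn A (e.2.eval A _) at h1
  rw [← Sub_eval h0 h, ← Sub_eval h0 h] at h1
  rw [← Sub_eval h0 h, ← Sub_eval h0 h]
  rwa [(e.1.eval (Sub A h0 h) v).2, (e.2.eval (Sub A h0 h) v).2] at h1

lemma dn_eval {A : Alg} (h0 : dn A A.zero = A.zero) (h : ∀ x y, dn A (A.imp x y) = A.imp x y)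
    (h' : ∀ x y, A.imp x y = A.imp (dn A x) (dn A y)) (v : ℕ → A.carrier) (t : Tm) :
    dn A (t.eval A v) = t.eval A (fun n => dn A (v n)) := by
  induction t with
  | var n => rfl
  | zero => exact h0
  | imp s t ihs iht =>
    simp only [Tm.eval]
    rw [h, h', ihs, iht]

/-- key step: if all products are closed and the closed elements form an algebra of `X`,
then the algebra lies in `ZM ⊔ X`. -/
lemma mem_sup_of_Sub {X : Variety} {A : Alg} (hA : IsIZ A)
    (h0 : dn A A.zero = A.zero) (h : ∀ x y, dn A (A.imp x y) = A.imp x y)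
    (h' : ∀ x y, A.imp x y = A.imp (dn A x) (dn A y)) (hS : Sub A h0 h ∈ X.mem) :
    A ∈ (ZM ⊔ X).mem := by
  rw [mem_sup]
  refine ⟨hA, ?_⟩
  rintro ⟨s, t⟩ hz hX
  -- the identity of two nonvariable terms
  have nonvar : ∀ s t : Tm, ¬ s.isVar → ¬ t.isVar → (Sat (Sub A h0 h) (s, t)) → Sat A (s, t) := by
    intro s t hs ht hst v
    have hcl : ∀ s : Tm, ¬ s.isVar → s.eval A v = s.eval A (fun n => dn A (v n)) := by
      intro s hs
      cases s with
      | var n => exact absurd trivial hs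
      | zero => rfl
      | imp s1 s2 =>
        simp only [Tm.eval]
        rw [h', dn_eval h0 h h', dn_eval h0 h h']
    change s.eval A v = t.eval A v
    rw [hcl s hs, hcl t ht]
    have hdd : ∀ x, dn A (dn A x) = dn A x := fun x => h _ _
    have := congrArg Subtype.val (hst fun n => ⟨dn A (v n), hdd _⟩)
    simp only [Sub_eval] at this
    exact this
  have hSat := hX _ hS
  -- test in `ZM`
  let B : Alg := ⟨Bool, fun _ _ => false, false⟩
  have hB : B ∈ ZM.mem := by
    rw [mem_ZM]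
    exact ⟨⟨fun _ _ _ => rfl, rfl⟩, fun _ _ => rfl⟩
  have hzB := hz B hB
  cases s with
  | var n =>
    have h1 := hzB fun k => if k = n then true else false
    cases t with
    | var m =>
      simp only [Tm.eval, if_true] at h1
      by_cases hmn : m = n
      · rw [hmn]; intro v; rfl
      · rw [if_neg hmn] at h1
        exact absurd h1 (by decide)
    | zero => exact absurd h1 (by simp [Tm.eval, B])
    | imp s t => exact absurd h1 (by simp [Tm.eval, B])
  | zero =>
    cases t with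
    | var m =>
      have h1 := hzB fun k => true
      exact absurd h1 (by simp [Tm.eval, B])
    | zero => exact nonvar _ _ id id hSat
    | imp s t => exact nonvar _ _ id id hSat
  | imp s1 s2 =>
    cases t with
    | var m =>
      have h1 := hzB fun k => true
      exact absurd h1 (by simp [Tm.eval, B])
    | zero => exact nonvar _ _ id id hSat
    | imp s t => exact nonvar _ _ id id hSat

lemma zm_inf_of_le {Y Z : Variety} (hY : Y ≤ I20) :
    (ZM ⊔ Y) ⊓ (ZM ⊔ Z) ≤ ZM ⊔ (Y ⊓ Z) := by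
  rintro A ⟨h1, h2⟩
  have hA := (mem_sup.mp h1).1
  obtain ⟨h', h⟩ := sup_facts hY h1
  have h0 : dn A A.zero = A.zero := hA.2
  refine mem_sup_of_Sub hA h0 h h' ⟨Sub_mem_of_sup hY h1 h0 h, ?_⟩
  by_cases hZ : ZM ≤ Z
  · rw [sup_eq_right.mpr hZ] at h2
    exact Sub_mem h0 h h2
  · exact Sub_mem_of_sup ((not_zm_le_iff Z).mp hZ) h2 h0 h

/-- `ZM` is a neutral element of the lattice of varieties of implication zroupoids. -/
theorem zm_neutral : IsNeutral ZM := by
  apply isNeutral_of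
  · intro y z h
    by_contra hcon
    push Not at hcon
    exact (not_zm_le_iff (y ⊔ z)).mpr
      (sup_le ((not_zm_le_iff y).mp hcon.1) ((not_zm_le_iff z).mp hcon.2)) h
  · intro y z
    by_cases hy : ZM ≤ y
    · by_cases hz : ZM ≤ z
      · rw [sup_eq_right.mpr hy, sup_eq_right.mpr hz]
        exact le_sup_right
      · rw [inf_comm, inf_comm y z]
        exact zm_inf_of_le ((not_zm_le_iff z).mp hz)
    · exact zm_inf_of_le ((not_zm_le_iff y).mp hy)
  · intro y z h1 h2
    by_cases hy : ZM ≤ y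
    · rw [sup_eq_right.mpr hy, sup_eq_right.mpr (h1.mp hy)] at h2
      exact h2
    · have hz : ¬ ZM ≤ z := fun h => hy (h1.mpr h)
      have hy' := (not_zm_le_iff y).mp hy
      have hz' := (not_zm_le_iff z).mp hz
      -- `y` is recovered from `ZM ⊔ y`
      have rec' : ∀ y : Variety, y ≤ I20 → (ZM ⊔ y) ⊓ I20 ≤ y := by
        rintro y hy' A ⟨hA, hI⟩
        have hd := (mem_I20.mp hI).2
        obtain ⟨E, hE⟩ := y.isVariety
        rw [hE]
        have hA' := mem_sup.mp hA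
        refine ⟨hA'.1, fun e he v => ?_⟩
        have h1 := hA'.2 (Tm.dn e.1, Tm.dn e.2) (zm_sat id id) (by
          intro B hB w
          rw [hE] at hB
          change dn B (e.1.eval B w) = dn B (e.2.eval B w)
          rw [hB.2 e he w]) v
        change A.imp (A.imp (e.1.eval A v) A.zero) A.zero =
          A.imp (A.imp (e.2.eval A v) A.zero) A.zero at h1
        rwa [hd, hd] at h1
      apply le_antisymm
      · exact (le_inf (le_sup_right.trans h2.le) hy').trans (rec' z hz')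
      · exact (le_inf (le_sup_right.trans h2.ge) hz').trans (rec' y hy')

end Q15IZ
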