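import Mathlib
import Pool.Agent.Q15.IZN.A1

/-! `SL` is not neutral in the lattice of varieties of implication zroupoids. -/

namespace Q15IZ

/-- `SL`: the implication zroupoids satisfying `(x → y) → z ≈ x → (y → z)`, `x → x ≈ x` and
`x → y ≈ y → x`. -/
def SL : Variety := ⟨Models {
  (.imp (.imp (.var 0) (.var 1)) (.var 2), .imp (.var 0) (.imp (.var 1) (.var 2))),
  (.imp (.var 0) (.var 0), .var 0),
  (.imp (.var 0) (.var 1), .imp (.var 1) (.var 0))}, _, rfl⟩

/-- models of `x → y ≈ x → z` -/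
def Y1 : Variety := ⟨Models {(.imp (.var 0) (.var 1), .imp (.var 0) (.var 2))}, _, rfl⟩

/-- models of `x → x ≈ 0` -/
def Z1 : Variety := ⟨Models {(.imp (.var 0) (.var 0), .zero)}, _, rfl⟩

/-- two-element semilattice -/
def S2 : Alg := ⟨Bool, fun x y => x || y, false⟩

/-- table of `T1` -/
def t1 : Fin 3 → Fin 3 → Fin 3 := ![![0, 0, 0], ![2, 2, 2], ![0, 0, 0]]

/-- table of `T2` -/
def t2 : Fin 3 → Fin 3 → Fin 3 := ![![0, 0, 0], ![2, 0, 2], ![0, 0, 0]]

/-- table of `M6` -/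
def m6 : Fin 6 → Fin 6 → Fin 6 := ![
  ![0, 2, 2, 3, 5, 5],
  ![2, 2, 2, 4, 4, 4],
  ![2, 2, 2, 5, 5, 5],
  ![3, 5, 5, 3, 5, 5],
  ![5, 5, 5, 5, 5, 5],
  ![5, 5, 5, 5, 5, 5]]

/-- the algebra `0, g, h` with `g → x = h` and all other products `0`. -/
def T1 : Alg := ⟨Fin 3, t1, 0⟩

/-- the algebra `0, g, h` with `g → 0 = g → h = h` and all other products `0`. -/
def T2 : Alg := ⟨Fin 3, t2, 0⟩

/-- the algebra `0, x, a, b, p, z`. -/
def M6 : Alg := ⟨Fin 6, m6, 0⟩

lemma s2_mem : S2 ∈ SL.mem := by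
  refine ⟨⟨?_, ?_⟩, ?_⟩
  · exact (by decide : ∀ x y z : Bool, ((x || y) || z) =
      (((((z || false) || x) || ((y || z) || false)) || false)))
  · exact (by decide : ((false || false) || false) = false)
  · rintro e (rfl | rfl | rfl) v
    · exact (by decide : ∀ x y z : Bool, ((x || y) || z) = (x || (y || z))) _ _ _
    · exact (by decide : ∀ x : Bool, (x || x) = x) _
    · exact (by decide : ∀ x y : Bool, (x || y) = (y || x)) _ _

lemma t1_mem : T1 ∈ Y1.mem := by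
  refine ⟨⟨?_, ?_⟩, ?_⟩
  · exact (by decide : ∀ x y z : Fin 3, t1 (t1 x y) z =
      t1 (t1 (t1 (t1 z 0) x) (t1 (t1 y z) 0)) 0)
  · exact (by decide : t1 (t1 0 0) 0 = 0)
  · rintro e rfl v
    exact (by decide : ∀ x y z : Fin 3, t1 x y = t1 x z) (v 0) (v 1) (v 2)

lemma t2_mem : T2 ∈ Z1.mem := by
  refine ⟨⟨?_, ?_⟩, ?_⟩
  · exact (by decide : ∀ x y z : Fin 3, t2 (t2 x y) z =
      t2 (t2 (t2 (t2 z 0) x) (t2 (t2 y z) 0)) 0)
  · exact (by decide : t2 (t2 0 0) 0 = 0)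
  · rintro e rfl v
    exact (by decide : ∀ x : Fin 3, t2 x x = 0) (v 0)

lemma m6_isIZ : IsIZ M6 := by
  refine ⟨?_, ?_⟩
  · exact (by decide : ∀ x y z : Fin 6, m6 (m6 x y) z =
      m6 (m6 (m6 (m6 z 0) x) (m6 (m6 y z) 0)) 0)
  · exact (by decide : m6 (m6 0 0) 0 = 0)

/-- contents -/
def cx : Fin 6 → Bool := ![false, true, true, false, true, true]
/-- contents -/
def cy : Fin 6 → Bool := ![false, false, false, true, true, true]

lemma cx_hom : ∀ x y : Fin 6, cx (m6 x y) = (cx x || cx y) := by decide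
lemma cy_hom : ∀ x y : Fin 6, cy (m6 x y) = (cy x || cy y) := by decide
lemma m6_no1 : ∀ x y : Fin 6, m6 x y ≠ 1 := by decide
lemma m6_pos : ∀ x y : Fin 6, m6 x y = 4 → x = 1 ∧ y ≠ 1 := by decide
lemma m6_last : ∀ y : Fin 6, cy 4 = cy (m6 1 y) → 4 = m6 1 y := by decide
lemma m6_key : ∀ x y : Fin 6, cx x = cx y → cy x = cy y → x ≠ y →
    (x = 1 ∨ x = 4) ∨ (y = 1 ∨ y = 4) := by decide
lemma m6_ncomm : m6 1 3 ≠ m6 3 1 := by decide

lemma cx_eval (v : ℕ → M6.carrier) (t : Tm) :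
    cx (t.eval M6 v) = t.eval S2 (fun n => cx (v n)) := by
  induction t with
  | var n => rfl
  | zero => rfl
  | imp s t ihs iht =>
    change cx (m6 (s.eval M6 v) (t.eval M6 v)) = _
    rw [cx_hom, ihs, iht]
    rfl

lemma cy_eval (v : ℕ → M6.carrier) (t : Tm) :
    cy (t.eval M6 v) = t.eval S2 (fun n => cy (v n)) := by
  induction t with
  | var n => rfl
  | zero => rfl
  | imp s t ihs iht =>
    change cy (m6 (s.eval M6 v) (t.eval M6 v)) = _
    rw [cy_hom, ihs, iht]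
    rfl

/-- The properties of the test algebras. -/
structure Tst (T : Alg) (g h : T.carrier) : Prop where
  n0 : T.zero ≠ g
  n1 : T.zero ≠ h
  n2 : g ≠ h
  p1 : ∀ s t, T.imp s t ≠ g
  p2 : ∀ t, t ≠ g → T.imp g t = h
  p3 : ∀ s t, T.imp s t = h → s = g

lemma tst1 : Tst T1 (1 : Fin 3) (2 : Fin 3) := by
  constructor
  · exact (by decide : (0 : Fin 3) ≠ 1)
  · exact (by decide : (0 : Fin 3) ≠ 2)
  · exact (by decide : (1 : Fin 3) ≠ 2)
  · exact (by decide : ∀ s t : Fin 3, t1 s t ≠ 1)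
  · exact (by decide : ∀ t : Fin 3, t ≠ 1 → t1 1 t = 2)
  · exact (by decide : ∀ s t : Fin 3, t1 s t = 2 → s = 1)

lemma tst2 : Tst T2 (1 : Fin 3) (2 : Fin 3) := by
  constructor
  · exact (by decide : (0 : Fin 3) ≠ 1)
  · exact (by decide : (0 : Fin 3) ≠ 2)
  · exact (by decide : (1 : Fin 3) ≠ 2)
  · exact (by decide : ∀ s t : Fin 3, t2 s t ≠ 1)
  · exact (by decide : ∀ t : Fin 3, t ≠ 1 → t2 1 t = 2)
  · exact (by decide : ∀ s t : Fin 3, t2 s t = 2 → s = 1)

section tst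
variable {T : Alg} {g h : T.carrier} (hT : Tst T g h)
include hT
open Classical

/-- the assignment sending the variable `n` to `g`. -/
noncomputable def asg (T : Alg) (g : T.carrier) (n : ℕ) : ℕ → T.carrier :=
  fun k => if k = n then g else T.zero

lemma eval_g {n : ℕ} {t : Tm} (ht : t.eval T (asg T g n) = g) : t = .var n := by
  cases t with
  | var k =>
    by_cases hk : k = n
    · rw [hk]
    · simp only [Tm.eval, asg, if_neg hk] at ht
      exact absurd ht hT.n0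
  | zero => exact absurd ht hT.n0
  | imp s t => exact absurd ht (hT.p1 _ _)

lemma sat_var {n : ℕ} {t : Tm} (ht : Sat T (.var n, t)) : t = .var n := by
  apply eval_g hT
  rw [← ht (asg T g n)]
  simp [Tm.eval, asg]

lemma sat_imp {n : ℕ} {s t : Tm} (hs : s ≠ .var n) (ht : Sat T (.imp (.var n) s, t)) :
    ∃ s', t = .imp (.var n) s' := by
  have h1 : s.eval T (asg T g n) ≠ g := fun h => hs (eval_g hT h)
  have h2 := ht (asg T g n)
  have h3 : (Tm.var n).eval T (asg T g n) = g := by simp [Tm.eval, asg]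
  rw [Tm.eval, h3, hT.p2 _ h1] at h2
  cases t with
  | var k =>
    exfalso
    simp only [Tm.eval, asg] at h2
    split_ifs at h2
    · exact hT.n2 h2.symm
    · exact hT.n1 h2.symm
  | zero => exact absurd h2.symm hT.n1
  | imp p q =>
    have h4 := hT.p3 _ _ h2.symm
    rw [eval_g hT h4]
    exact ⟨q, rfl⟩

/-- one direction of the equality of the values -/
lemma half {s t : Tm} (hsl : Sat S2 (s, t)) (hst : Sat T (s, t)) (v : ℕ → M6.carrier)
    (hne : s.eval M6 v ≠ t.eval M6 v)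
    (hs : s.eval M6 v = (1 : Fin 6) ∨ s.eval M6 v = (4 : Fin 6)) : False := by
  have hy : cy (s.eval M6 v) = cy (t.eval M6 v) := by
    rw [cy_eval, cy_eval]; exact hsl _
  cases s with
  | var n =>
    apply hne
    rw [sat_var hT hst]
  | zero =>
    rcases hs with hs | hs
    · exact (by decide : (0 : Fin 6) ≠ 1) hs
    · exact (by decide : (0 : Fin 6) ≠ 4) hs
  | imp s1 s2 =>
    have var_of : ∀ t : Tm, t.eval M6 v = (1 : Fin 6) → ∃ n, t = .var n := by
      intro t ht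
      cases t with
      | var n => exact ⟨n, rfl⟩
      | zero => exact absurd ht (by decide : (0 : Fin 6) ≠ 1)
      | imp p q => exact absurd ht (m6_no1 _ _)
    rcases hs with hs | hs
    · exact m6_no1 _ _ hs
    · obtain ⟨h1, h2⟩ := m6_pos _ _ hs
      obtain ⟨n, rfl⟩ := var_of _ h1
      have h3 : s2 ≠ .var n := by
        rintro rfl
        exact h2 h1
      obtain ⟨s', rfl⟩ := sat_imp hT h3 hst
      apply hne
      rw [hs] at hy ⊢
      change (4 : Fin 6) = m6 ((Tm.var n).eval M6 v) (s'.eval M6 v)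
      change cy 4 = cy (m6 ((Tm.var n).eval M6 v) (s'.eval M6 v)) at hy
      rw [h1] at hy ⊢
      exact m6_last _ hy

lemma m6_sat {s t : Tm} (hsl : Sat S2 (s, t)) (hst : Sat T (s, t)) : Sat M6 (s, t) := by
  intro v
  change s.eval M6 v = t.eval M6 v
  by_contra hne
  have hx : cx (s.eval M6 v) = cx (t.eval M6 v) := by
    rw [cx_eval, cx_eval]; exact hsl _
  have hy : cy (s.eval M6 v) = cy (t.eval M6 v) := by
    rw [cy_eval, cy_eval]; exact hsl _
  rcases m6_key _ _ hx hy hne with h | h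
  · exact half hT hsl hst v hne h
  · exact half hT (fun v => (hsl v).symm) (fun v => (hst v).symm) v (Ne.symm hne) h

lemma m6_mem {X : Variety} (hX : T ∈ X.mem) : M6 ∈ (SL ⊔ X).mem := by
  rw [mem_sup]
  refine ⟨m6_isIZ, ?_⟩
  rintro ⟨s, t⟩ h1 h2
  exact m6_sat hT (h1 _ s2_mem) (h2 _ hX)

end tst

/-- `SL` is not a neutral element of the lattice of varieties of implication zroupoids: the
varieties `Y1`, `Z1` satisfy `SL ∨ (Y1 ∧ Z1) ≠ (SL ∨ Y1) ∧ (SL ∨ Z1)`. -/
theorem sl_not_dist : ¬ (SL ⊔ Y1) ⊓ (SL ⊔ Z1) ≤ SL ⊔ (Y1 ⊓ Z1) := by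
  intro h
  have h1 : M6 ∈ (SL ⊔ (Y1 ⊓ Z1)).mem := h ⟨m6_mem tst1 t1_mem, m6_mem tst2 t2_mem⟩
  have h2 := (mem_sup.mp h1).2 (.imp (.var 0) (.var 1), .imp (.var 1) (.var 0)) (by
    rintro B ⟨-, hB⟩
    exact hB _ (Or.inr (Or.inr rfl))) (by
    rintro B ⟨⟨-, hB1⟩, -, hB2⟩ v
    have e1 : ∀ x y z, B.imp x y = B.imp x z := fun x y z =>
      hB1 _ rfl fun n => if n = 0 then x else if n = 1 then y else z
    have e2 : ∀ x, B.imp x x = B.zero := fun x => hB2 _ rfl fun _ => x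
    change B.imp (v 0) (v 1) = B.imp (v 1) (v 0)
    rw [e1 (v 0) (v 1) (v 0), e2, e1 (v 1) (v 0) (v 1), e2])
  have h3 := h2 fun n => if n = 0 then (1 : Fin 6) else (3 : Fin 6)
  exact m6_ncomm h3

theorem not_neutral_of_dist {L : Type*} [Lattice L] {a y z : L}
    (h : ¬ (a ⊔ y) ⊓ (a ⊔ z) ≤ a ⊔ (y ⊓ z)) : ¬ IsNeutral a := by
  intro hn
  apply h
  have hcl := isSublattice_latticeClosure (s := ({a, y, z} : Set L))
  have ha : a ∈ latticeClosure ({a, y, z} : Set L) := subset_latticeClosure (Or.inl rfl)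
  have hy : y ∈ latticeClosure ({a, y, z} : Set L) := subset_latticeClosure (Or.inr (Or.inl rfl))
  have hz : z ∈ latticeClosure ({a, y, z} : Set L) :=
    subset_latticeClosure (Or.inr (Or.inr rfl))
  rw [hn y z _ (hcl.1 ha hy) a ha z hz, inf_comm (a ⊔ y) z, hn y z z hz a ha y hy]
  refine sup_le (inf_le_right.trans le_sup_left) (sup_le (inf_le_right.trans le_sup_left) ?_)
  rw [inf_comm]
  exact le_sup_right

theorem sl_not_neutral : ¬ IsNeutral SL := not_neutral_of_dist sl_not_dist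

end Q15IZ
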