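import Mathlib
import Pool.Agent.Q15.IZN.A1

/-! `BA` is not neutral in the lattice of varieties of implication zroupoids. -/

namespace Q15IZ

/-- The algebra is a Boolean algebra viewed as an implication zroupoid: `x → y = ¬x ∨ y` and the
constant is the least element. -/
def IsBoolean (A : Alg) : Prop :=
  ∃ _ : BooleanAlgebra A.carrier, (∀ x y : A.carrier, A.imp x y = xᶜ ⊔ y) ∧ A.zero = ⊥

/-- `¬ t` -/
def Tm.n (t : Tm) : Tm := .imp t .zero
/-- `s ∨ t` -/
def Tm.j (s t : Tm) : Tm := .imp s.n t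
/-- `s ∧ t` -/
def Tm.m (s t : Tm) : Tm := .n (.imp s t.n)

/-- a basis of identities of Boolean algebras in the language `→`, `0` -/
def baEq : Set (Tm × Tm) := {
  (Tm.n (Tm.n (.var 0)), .var 0),
  (Tm.j (.var 0) (.var 1), Tm.j (.var 1) (.var 0)),
  (Tm.j (Tm.j (.var 0) (.var 1)) (.var 2), Tm.j (.var 0) (Tm.j (.var 1) (.var 2))),
  (Tm.m (.var 0) (.var 1), Tm.m (.var 1) (.var 0)),
  (Tm.m (Tm.m (.var 0) (.var 1)) (.var 2), Tm.m (.var 0) (Tm.m (.var 1) (.var 2))),
  (Tm.j (.var 0) (Tm.m (.var 0) (.var 1)), .var 0),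
  (Tm.m (.var 0) (Tm.j (.var 0) (.var 1)), .var 0),
  (Tm.m (Tm.j (.var 0) (.var 1)) (Tm.j (.var 0) (.var 2)),
    Tm.j (.var 0) (Tm.m (.var 1) (.var 2))),
  (Tm.m (.var 0) (Tm.n (.var 0)), .zero),
  (Tm.j (.var 0) (Tm.n (.var 0)), Tm.n .zero)}

section bool
variable {B : Type*} [BooleanAlgebra B]

lemma bool_iz (x y z : B) : (xᶜ ⊔ y)ᶜ ⊔ z = ((((zᶜ ⊔ ⊥)ᶜ ⊔ x)ᶜ ⊔ ((yᶜ ⊔ z)ᶜ ⊔ ⊥))ᶜ ⊔ ⊥) := by
  simp only [sup_bot_eq, compl_compl, compl_sup, compl_inf]
  rw [sup_inf_right, sup_comm z x]

end bool

lemma isBoolean_isIZ {A : Alg} (h : IsBoolean A) : IsIZ A := by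
  obtain ⟨_, h1, h2⟩ := h
  constructor
  · intro x y z
    simp only [h1, h2]
    exact bool_iz x y z
  · simp only [h1, h2]
    simp

lemma isBoolean_sat {A : Alg} (h : IsBoolean A) : ∀ e ∈ baEq, Sat A e := by
  obtain ⟨_, h1, h2⟩ := h
  rintro e (rfl | rfl | rfl | rfl | rfl | rfl | rfl | rfl | rfl | rfl) v <;>
    simp only [Tm.n, Tm.j, Tm.m, Tm.eval, h1, h2, sup_bot_eq, compl_compl, compl_sup,
      compl_inf]
  · exact sup_comm _ _
  · exact sup_assoc _ _ _
  · exact inf_comm _ _
  · exact inf_assoc _ _ _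
  · exact sup_inf_self
  · exact inf_sup_self
  · exact (sup_inf_left _ _ _).symm
  · exact inf_compl_eq_bot
  · simp

lemma isBoolean_of {A : Alg} (h : ∀ e ∈ baEq, Sat A e) : IsBoolean A := by
  let n : A.carrier → A.carrier := fun x => A.imp x A.zero
  let j : A.carrier → A.carrier → A.carrier := fun x y => A.imp (n x) y
  let m : A.carrier → A.carrier → A.carrier := fun x y => n (A.imp x (n y))
  let as : A.carrier → A.carrier → A.carrier → ℕ → A.carrier :=
    fun x y z k => if k = 0 then x else if k = 1 then y else z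
  have e1 : ∀ x, n (n x) = x := fun x => h _ (Or.inl rfl) (as x x x)
  have e2 : ∀ x y, j x y = j y x := fun x y => h _ (Or.inr (Or.inl rfl)) (as x y y)
  have e3 : ∀ x y z, j (j x y) z = j x (j y z) := fun x y z =>
    h _ (Or.inr (Or.inr (Or.inl rfl))) (as x y z)
  have e4 : ∀ x y, m x y = m y x := fun x y =>
    h _ (Or.inr (Or.inr (Or.inr (Or.inl rfl)))) (as x y y)
  have e5 : ∀ x y z, m (m x y) z = m x (m y z) := fun x y z =>
    h _ (Or.inr (Or.inr (Or.inr (Or.inr (Or.inl rfl))))) (as x y z)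
  have e6 : ∀ x y, j x (m x y) = x := fun x y =>
    h _ (Or.inr (Or.inr (Or.inr (Or.inr (Or.inr (Or.inl rfl)))))) (as x y y)
  have e7 : ∀ x y, m x (j x y) = x := fun x y =>
    h _ (Or.inr (Or.inr (Or.inr (Or.inr (Or.inr (Or.inr (Or.inl rfl))))))) (as x y y)
  have e8 : ∀ x y z, m (j x y) (j x z) = j x (m y z) := fun x y z =>
    h _ (Or.inr (Or.inr (Or.inr (Or.inr (Or.inr (Or.inr (Or.inr (Or.inl rfl)))))))) (as x y z)
  have e9 : ∀ x, m x (n x) = A.zero := fun x =>
    h _ (Or.inr (Or.inr (Or.inr (Or.inr (Or.inr (Or.inr (Or.inr (Or.inr (Or.inl rfl)))))))))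
      (as x x x)
  have e10 : ∀ x, j x (n x) = n A.zero := fun x =>
    h _ (Or.inr (Or.inr (Or.inr (Or.inr (Or.inr (Or.inr (Or.inr (Or.inr (Or.inr rfl)))))))))
      (as x x x)
  letI iS : Max A.carrier := ⟨j⟩
  letI iM : Min A.carrier := ⟨m⟩
  letI iL : Lattice A.carrier := Lattice.mk' e2 e3 e4 e5 e6 e7
  letI iD : DistribLattice A.carrier := { iL with le_sup_inf := fun x y z => (e8 x y z).le }
  have hbot : ∀ x : A.carrier, A.zero ≤ x := by
    intro x
    rw [← inf_eq_right]
    change m x A.zero = A.zero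
    rw [← e9 x, ← e5]
    congr 1
    exact inf_idem x
  have htop : ∀ x : A.carrier, x ≤ n A.zero := by
    intro x
    rw [← sup_eq_right]
    change j x (n A.zero) = n A.zero
    rw [← e10 x, ← e3]
    congr 1
    exact sup_idem x
  let iB : BooleanAlgebra A.carrier :=
    { iD with
      compl := n
      top := n A.zero
      bot := A.zero
      inf_compl_le_bot := fun x => (e9 x).le
      top_le_sup_compl := fun x => (e10 x).ge
      le_top := htop
      bot_le := hbot }
  refine ⟨iB, fun x y => ?_, rfl⟩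
  change A.imp x y = j (n x) y
  change A.imp x y = A.imp (n (n x)) y
  rw [e1]

/-- `BA`: the variety of Boolean algebras. -/
def BA : Variety := ⟨{A | IsBoolean A}, baEq, by
  ext A
  exact ⟨fun h => ⟨isBoolean_isIZ h, isBoolean_sat h⟩, fun h => isBoolean_of h.2⟩⟩

/-- models of `(x → y) → z ≈ 0` and `x → (y → z) ≈ 0` -/
def Z2 : Variety := ⟨Models {(.imp (.imp (.var 0) (.var 1)) (.var 2), .zero),
  (.imp (.var 0) (.imp (.var 1) (.var 2)), .zero)}, _, rfl⟩

/-- models of `(x → y) → z ≈ 0`, `x → (y → z) ≈ 0` and `x → y ≈ y → x` -/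
def Y2 : Variety := ⟨Models {(.imp (.imp (.var 0) (.var 1)) (.var 2), .zero),
  (.imp (.var 0) (.imp (.var 1) (.var 2)), .zero),
  (.imp (.var 0) (.var 1), .imp (.var 1) (.var 0))}, _, rfl⟩

lemma mem_Z2 {A : Alg} : A ∈ Z2.mem ↔ IsIZ A ∧ (∀ x y z, A.imp (A.imp x y) z = A.zero) ∧
    (∀ x y z, A.imp x (A.imp y z) = A.zero) := by
  constructor
  · rintro ⟨h, hE⟩
    refine ⟨h, fun x y z => ?_, fun x y z => ?_⟩
    · exact hE _ (Or.inl rfl) fun n => if n = 0 then x else if n = 1 then y else z
    · exact hE _ (Or.inr rfl) fun n => if n = 0 then x else if n = 1 then y else z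
  · rintro ⟨h, h1, h2⟩
    refine ⟨h, ?_⟩
    rintro e (rfl | rfl) v
    · exact h1 _ _ _
    · exact h2 _ _ _

lemma mem_Y2 {A : Alg} : A ∈ Y2.mem ↔ A ∈ Z2.mem ∧ ∀ x y, A.imp x y = A.imp y x := by
  rw [mem_Z2]
  constructor
  · rintro ⟨h, hE⟩
    refine ⟨⟨h, fun x y z => ?_, fun x y z => ?_⟩, fun x y => ?_⟩
    · exact hE _ (Or.inl rfl) fun n => if n = 0 then x else if n = 1 then y else z
    · exact hE _ (Or.inr (Or.inl rfl)) fun n => if n = 0 then x else if n = 1 then y else z
    · exact hE _ (Or.inr (Or.inr rfl)) fun n => if n = 0 then x else y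
  · rintro ⟨⟨h, h1, h2⟩, h3⟩
    refine ⟨h, ?_⟩
    rintro e (rfl | rfl | rfl) v
    · exact h1 _ _ _
    · exact h2 _ _ _
    · exact h3 _ _

/-- sufficient condition for being an implication zroupoid -/
lemma isIZ_nil {A : Alg} (h1 : ∀ x y z, A.imp (A.imp x y) z = A.zero) : IsIZ A :=
  ⟨fun x y z => by rw [h1, h1], h1 _ _ _⟩

/-- commutative nilpotent test algebra: `none`, generators `inl n` and unordered pairs. -/
noncomputable def C1 : Alg where
  carrier := Option (ℕ ⊕ Sym2 ℕ)
  imp x y := match x, y with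
    | some (.inl a), some (.inl b) => some (.inr s(a, b))
    | _, _ => none
  zero := none

lemma C1_gen (a b : ℕ) : C1.imp (some (.inl a)) (some (.inl b)) = some (.inr s(a, b)) := rfl

lemma C1_ne (x y : C1.carrier) (a : ℕ) : C1.imp x y ≠ some (.inl a) := by
  rcases x with _ | a | a <;> rcases y with _ | b | b <;> intro h <;> cases h

lemma C1_left {x : C1.carrier} (hx : ∀ a : ℕ, x ≠ some (.inl a)) (y : C1.carrier) :
    C1.imp x y = none := by
  rcases x with _ | a | a
  · rfl
  · exact absurd rfl (hx a)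
  · rfl

lemma C1_right {y : C1.carrier} (hy : ∀ a : ℕ, y ≠ some (.inl a)) (x : C1.carrier) :
    C1.imp x y = none := by
  rcases x with _ | a | a <;> rcases y with _ | b | b <;>
    first | rfl | exact absurd rfl (hy b)

lemma C1_mem : C1 ∈ Y2.mem := by
  rw [mem_Y2, mem_Z2]
  have h1 : ∀ x y z, C1.imp (C1.imp x y) z = C1.zero := fun x y z => C1_left (C1_ne x y) z
  refine ⟨⟨isIZ_nil h1, h1, fun x y z => C1_right (C1_ne y z) x⟩, ?_⟩
  intro x y
  rcases x with _ | a | a <;> rcases y with _ | b | b <;>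
    first | rfl | (rw [C1_gen, C1_gen, Sym2.eq_swap])

/-- generic assignment -/
noncomputable def gen : ℕ → C1.carrier := fun n => some (.inl n)

lemma gen_inl {t : Tm} {a : ℕ} (h : t.eval C1 gen = some (.inl a)) : t = .var a := by
  cases t with
  | var n =>
    have h1 : (some (.inl n) : Option (ℕ ⊕ Sym2 ℕ)) = some (.inl a) := h
    simp at h1
    rw [h1]
  | zero => cases h
  | imp s t => exact absurd h (C1_ne _ _ _)

lemma gen_inr {t : Tm} {a b : ℕ} (h : t.eval C1 gen = some (.inr s(a, b))) :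
    t = .imp (.var a) (.var b) ∨ t = .imp (.var b) (.var a) := by
  cases t with
  | var n => cases h
  | zero => cases h
  | imp s t =>
    rw [Tm.eval] at h
    by_cases hs : ∃ c, s.eval C1 gen = some (.inl c)
    · by_cases ht : ∃ d, t.eval C1 gen = some (.inl d)
      · obtain ⟨c, hc⟩ := hs
        obtain ⟨d, hd⟩ := ht
        rw [hc, hd, C1_gen] at h
        have h1 : s(c, d) = s(a, b) := by
          have := Option.some.inj h
          exact Sum.inr_injective this
        rw [gen_inl hc, gen_inl hd]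
        rcases Sym2.eq_iff.mp h1 with ⟨rfl, rfl⟩ | ⟨rfl, rfl⟩
        · exact Or.inl rfl
        · exact Or.inr rfl
      · push Not at ht
        rw [C1_right ht] at h
        cases h
    · push Not at hs
      rw [C1_left hs] at h
      cases h

lemma gen_none {t : Tm} (h : t.eval C1 gen = none) {A : Alg} (hA : A ∈ Z2.mem)
    (v : ℕ → A.carrier) : t.eval A v = A.zero := by
  obtain ⟨hz, h1, h2⟩ := mem_Z2.mp hA
  cases t with
  | var n => cases h
  | zero => rfl
  | imp s t =>
    have hzero : ∀ x y, s.eval A v = A.imp x y → A.imp (s.eval A v) (t.eval A v) = A.zero := by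
      intro x y hxy; rw [hxy, h1]
    have hzero' : ∀ x y, t.eval A v = A.imp x y → A.imp (s.eval A v) (t.eval A v) = A.zero := by
      intro x y hxy; rw [hxy, h2]
    rw [Tm.eval]
    cases s with
    | imp p q => exact hzero _ _ rfl
    | zero => exact hzero _ _ hz.2.symm
    | var a =>
      cases t with
      | imp p q => exact hzero' _ _ rfl
      | zero => exact hzero' _ _ hz.2.symm
      | var b => cases h

/-- the two-element Boolean algebra -/
def B2 : Alg := ⟨Bool, fun x y => !x || y, false⟩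

lemma B2_mem : B2 ∈ BA.mem :=
  ⟨(inferInstance : BooleanAlgebra Bool), fun _ _ => rfl, rfl⟩

/-- `BA ∨ Y2` contains `Z2`. -/
theorem Z2_le : Z2 ≤ BA ⊔ Y2 := by
  intro A hA
  change A ∈ (BA ⊔ Y2).mem
  rw [mem_sup]
  have hA' := mem_Z2.mp hA
  refine ⟨hA'.1, ?_⟩
  rintro ⟨s, t⟩ hB hY v
  have h1 : s.eval C1 gen = t.eval C1 gen := hY _ C1_mem gen
  change s.eval A v = t.eval A v
  rcases e : s.eval C1 gen with _ | a | p
  · have e' : t.eval C1 gen = none := h1.symm.trans e
    rw [gen_none e hA, gen_none e' hA]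
  · have e' : t.eval C1 gen = some (.inl a) := h1.symm.trans e
    rw [gen_inl e, gen_inl e']
  · induction p using Sym2.ind with
    | _ a b =>
      have e' : t.eval C1 gen = some (.inr s(a, b)) := h1.symm.trans e
      by_cases hab : a = b
      · subst hab
        have hs : s = .imp (.var a) (.var a) := (gen_inr e).elim id id
        have ht : t = .imp (.var a) (.var a) := (gen_inr e').elim id id
        rw [hs, ht]
      · have h2 := hB _ B2_mem fun n => if n = a then false else true
        have hne : (fun n : ℕ => if n = a then false else true) b = true :=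
          if_neg (Ne.symm hab)
        have heq : (fun n : ℕ => if n = a then false else true) a = false := if_pos rfl
        rcases gen_inr e with rfl | rfl <;> rcases gen_inr e' with rfl | rfl
        · rfl
        · exfalso
          have h3 : (!false || true) = (!true || false) := by
            have h4 : B2.imp ((fun n : ℕ => if n = a then false else true) a)
              ((fun n : ℕ => if n = a then false else true) b) =
              B2.imp ((fun n : ℕ => if n = a then false else true) b)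
              ((fun n : ℕ => if n = a then false else true) a) := h2
            rw [hne, heq] at h4
            exact h4
          exact absurd h3 (by decide)
        · exfalso
          have h3 : (!true || false) = (!false || true) := by
            have h4 : B2.imp ((fun n : ℕ => if n = a then false else true) b)
              ((fun n : ℕ => if n = a then false else true) a) =
              B2.imp ((fun n : ℕ => if n = a then false else true) a)
              ((fun n : ℕ => if n = a then false else true) b) := h2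
            rw [hne, heq] at h4
            exact h4
          exact absurd h3 (by decide)
        · rfl

lemma Y2_le_Z2 : Y2 ≤ Z2 := fun _ hA => (mem_Y2.mp hA).1

/-- a noncommutative algebra of `Z2` -/
def N1 : Alg := ⟨Option (ℕ ⊕ ℕ × ℕ), fun x y => match x, y with
    | some (.inl a), some (.inl b) => some (.inr (a, b))
    | _, _ => none, none⟩

lemma N1_ne (x y : N1.carrier) (a : ℕ) : N1.imp x y ≠ some (.inl a) := by
  rcases x with _ | a | a <;> rcases y with _ | b | b <;> intro h <;> cases h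

lemma N1_mem : N1 ∈ Z2.mem := by
  rw [mem_Z2]
  have left : ∀ {x : N1.carrier} (_ : ∀ a : ℕ, x ≠ some (.inl a)) (y : N1.carrier),
      N1.imp x y = none := by
    intro x hx y
    rcases x with _ | a | a
    · rfl
    · exact absurd rfl (hx a)
    · rfl
  have right : ∀ {y : N1.carrier} (_ : ∀ a : ℕ, y ≠ some (.inl a)) (x : N1.carrier),
      N1.imp x y = none := by
    intro y hy x
    rcases x with _ | a | a <;> rcases y with _ | b | b <;>
      first | rfl | exact absurd rfl (hy b)
  have h1 : ∀ x y z, N1.imp (N1.imp x y) z = N1.zero := fun x y z => left (N1_ne x y) z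
  exact ⟨isIZ_nil h1, h1, fun x y z => right (N1_ne y z) x⟩

lemma Z2_not_le_Y2 : ¬ Z2 ≤ Y2 := by
  intro h
  have h1 := (mem_Y2.mp (h N1_mem)).2 (some (.inl 0)) (some (.inl 1))
  have h2 : (some (.inr (0, 1)) : Option (ℕ ⊕ ℕ × ℕ)) = some (.inr (1, 0)) := h1
  simp at h2

/-- `BA ∧ Z2` is trivial -/
lemma BA_inf_Z2 : BA ⊓ Z2 ≤ Y2 := by
  rintro A ⟨⟨_, h1, h2⟩, hZ⟩
  have hZ' := mem_Z2.mp hZ
  rw [mem_Y2]
  refine ⟨hZ, ?_⟩
  have h3 : ∀ x : A.carrier, x = ⊥ := by
    intro x
    have h4 := hZ'.2.1 x A.zero A.zero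
    simp only [h1, h2, sup_bot_eq, compl_compl] at h4
    exact h4
  intro x y
  rw [h3 x, h3 y]

/-- `BA` is not a neutral element of the lattice of varieties of implication zroupoids: `BA`,
`Y2` and `Z2` generate a pentagon. -/
theorem ba_not_neutral : ¬ IsNeutral BA := by
  intro hn
  have hcl := isSublattice_latticeClosure (s := ({BA, Y2, Z2} : Set Variety))
  have ha : BA ∈ latticeClosure ({BA, Y2, Z2} : Set Variety) :=
    subset_latticeClosure (Or.inl rfl)
  have hy : Y2 ∈ latticeClosure ({BA, Y2, Z2} : Set Variety) :=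
    subset_latticeClosure (Or.inr (Or.inl rfl))
  have hz : Z2 ∈ latticeClosure ({BA, Y2, Z2} : Set Variety) :=
    subset_latticeClosure (Or.inr (Or.inr rfl))
  have h := hn Y2 Z2 Z2 hz BA ha Y2 hy
  rw [inf_eq_left.mpr Z2_le] at h
  apply Z2_not_le_Y2
  rw [h]
  exact sup_le (by rw [inf_comm]; exact BA_inf_Z2) inf_le_right

end Q15IZ
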